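import Pool.Agent.Helper34.FF.G1
import Pool.Agent.Helper34.FF.Goals2
import Pool.Agent.Helper1.FF2.Goals2

/-!
# The balanced separator from a breadth first search tree (MP_7cb822_co, packet B12)
-/

namespace Pool.Agent.Helper5.FF

open Finset
open Pool.Agent.Helper34.FF hiding StmtG
open Pool.Agent.Helper1.FF2 (IsTree tE StmtTree StmtAcyc StmtLca)
open scoped symmDiff Classical

section
variable {V F : Type} [Fintype V] [Fintype F] {T : Tri V F}

lemma two_faces {e : Sym2 V} (he : e ∈ T.G.edgeSet) {g : F} (hg : T.on e g) :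
    ∃ h, h ≠ g ∧ (∀ f, T.on e f ↔ f = g ∨ f = h) ∧
      ∀ S, e ∈ T.bdry S ↔ ¬ (g ∈ S ↔ h ∈ S) := by
  have h2 := (pAlg V F T).2.2.2.1 e he
  obtain ⟨a, b, hab, h2⟩ := card_eq_two.mp h2
  have key : ∃ h, h ≠ g ∧ (∀ f, T.on e f ↔ f = g ∨ f = h) := by
    have hmem : ∀ f, T.on e f ↔ f = a ∨ f = b := by
      intro f
      have := congrArg (fun s => f ∈ s) h2
      simpa using this
    rcases (hmem g).1 hg with h | h
    · subst h
      exact ⟨b, hab.symm, hmem⟩
    · subst h
      exact ⟨a, hab, fun f => by rw [hmem f]; tauto⟩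
  obtain ⟨h, hh, hon⟩ := key
  refine ⟨h, hh, hon, fun S => ?_⟩
  have hS : (S.filter fun f => T.on e f) = ({g, h} : Finset F).filter (· ∈ S) := by
    ext f
    simp only [mem_filter, mem_insert, mem_singleton, hon]
    tauto
  simp only [Tri.bdry, mem_filter, mem_univ, true_and, he, hS]
  by_cases h1 : g ∈ S <;> by_cases h2 : h ∈ S <;>
    simp [filter_insert, filter_singleton, h1, h2, hh.symm]

lemma mem_bdry_singleton {e : Sym2 V} {g : F} :
    e ∈ T.bdry {g} ↔ e ∈ T.G.edgeSet ∧ T.on e g := by
  simp only [Tri.bdry, mem_filter, mem_univ, true_and]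
  by_cases h : T.on e g <;> simp [filter_singleton, h]

lemma isW_dist {G : SimpleGraph V} {k : ℕ} {a : ℕ → V} {x y : V} (h : IsW G k a x y) :
    G.dist x y ≤ k := by
  have : ∀ i ≤ k, ∃ p : G.Walk (a 0) (a i), p.length = i := by
    intro i
    induction i with
    | zero => intro _; exact ⟨.nil, rfl⟩
    | succ i ih =>
      intro hi
      obtain ⟨p, hp⟩ := ih (by omega)
      exact ⟨p.concat (h.2.2 i (by omega)), by simp [SimpleGraph.Walk.length_concat, hp]⟩
  obtain ⟨p, hp⟩ := this k le_rfl
  have h1 := SimpleGraph.dist_le p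
  have h2 := h.1
  have h3 := h.2.1
  rw [← h2, ← h3]
  omega

lemma six {α : Type*} [DecidableEq α] (a b c p q r : Finset α) :
    ((a ∆ (p ∆ q)) ∆ (a ∆ (b ∆ c))) ∆ ((b ∆ (q ∆ r)) ∆ (c ∆ (r ∆ p))) = ∅ := by
  ext e
  by_cases h1 : e ∈ a <;> by_cases h2 : e ∈ b <;> by_cases h3 : e ∈ c <;>
    by_cases h4 : e ∈ p <;> by_cases h5 : e ∈ q <;> by_cases h6 : e ∈ r <;>
    simp only [mem_symmDiff, h1, h2, h3, h4, h5, h6, notMem_empty, not_true_eq_false,
      not_false_eq_true, and_true, and_false, or_false, or_true, true_and, false_and, false_or,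
      true_or]

lemma card_symmDiff_par {α : Type*} [DecidableEq α] (A B : Finset α) :
    Even (A ∆ B).card ↔ (Even A.card ↔ Even B.card) := by
  have h1 : (A ∆ B).card = (A \ B).card + (B \ A).card := by
    rw [symmDiff_def, sup_eq_union, card_union_of_disjoint]
    exact disjoint_sdiff_sdiff
  have h2 := card_sdiff_add_card_inter A B
  have h3 := card_sdiff_add_card_inter B A
  rw [inter_comm] at h3
  rw [h1, ← h2, ← h3]
  simp only [Nat.even_add]
  tauto

/-- `bdry (A ∩ B) ⊆ bdry A ∪ bdry B`. -/
lemma bdry_inter {A B : Finset F} {e : Sym2 V} (h : e ∈ T.bdry (A ∩ B)) :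
    e ∈ T.bdry A ∨ e ∈ T.bdry B := by
  have he : e ∈ T.G.edgeSet := by
    simp only [Tri.bdry, mem_filter] at h
    exact h.2.1
  obtain ⟨g, hg⟩ : ∃ g, T.on e g := by
    have h2 := (pAlg V F T).2.2.2.1 e he
    have : (univ.filter fun f => T.on e f).Nonempty := by
      rw [← card_pos, h2]; norm_num
    obtain ⟨g, hg⟩ := this
    exact ⟨g, (mem_filter.1 hg).2⟩
  obtain ⟨h', -, -, hb⟩ := two_faces he hg
  rw [hb] at h ⊢
  rw [hb]
  simp only [mem_inter] at h
  tauto

lemma bdry_sub {A : Finset F} {e : Sym2 V} (h : e ∈ T.bdry A) : e ∈ T.G.edgeSet := by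
  simp only [Tri.bdry, mem_filter] at h
  exact h.2.1

end

theorem pf_StmtSeparator (hTree : StmtTree) (hAc : StmtAcyc) (hLca : StmtLca)
    (hMass : StmtMass) : StmtSeparator := by
  intro V F _ _ T hS L o r hr hL
  obtain ⟨P, hP⟩ := hTree V T.G o
  have hreach : ∀ x, T.G.Reachable o x := fun x => hS.conn.preconnected o x
  have hdist : ∀ x, T.G.dist o x ≤ r := by
    intro x
    obtain ⟨k, hk, a, ha⟩ := hr x
    exact (isW_dist ha).trans hk
  obtain ⟨aAdd, aCompl, aEven, aTwo, -, -, -⟩ := pAlg V F T
  -- the set of tree edges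
  set t : V → Finset (Sym2 V) := fun x => tE T.G o P x with ht
  have acyc : ∀ Z : Finset (Sym2 V), EvenSet Z → (∀ e ∈ Z, ∃ x, e ∈ t x) → Z = ∅ := by
    intro Z hZ h
    exact hAc V T.G o P hP Z hZ fun e he => by
      obtain ⟨x, hx⟩ := h e he
      exact ⟨x, hreach x, hx⟩
  let Z : V → V → Finset (Sym2 V) := fun x y => {s(x, y)} ∆ (t x ∆ t y)
  have hZcard : ∀ x y, (t x ∆ t y).card ≤ 2 * r := by
    intro x y
    obtain ⟨a, -, -, -, -, h, -⟩ := hLca V T.G o P hP x y (hreach x) (hreach y)
    have h1 := hdist x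
    have h2 := hdist y
    simp only [ht]
    omega
  have hZeven : ∀ x y, x ≠ y → EvenSet (Z x y) := by
    intro x y hxy v
    obtain ⟨a, -, -, -, -, -, h⟩ := hLca V T.G o P hP x y (hreach x) (hreach y)
    have h1 := h v
    have h2 : ((Z x y).filter fun e => v ∈ e) =
        (({s(x, y)} : Finset (Sym2 V)).filter fun e => v ∈ e) ∆
          ((t x ∆ t y).filter fun e => v ∈ e) := by
      ext e
      simp only [Z, mem_filter, mem_symmDiff, mem_singleton]
      tauto
    rw [h2, card_symmDiff_par, ← not_iff_not (b := Even _), Nat.not_even_iff_odd,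
      Nat.not_even_iff_odd, h1]
    by_cases hv : v = x ∨ v = y
    · have : (({s(x, y)} : Finset (Sym2 V)).filter fun e => v ∈ e) = {s(x, y)} := by
        rw [filter_singleton, if_pos]
        simpa using hv
      rw [this]
      simp [hxy, hv]
    · have : (({s(x, y)} : Finset (Sym2 V)).filter fun e => v ∈ e) = ∅ := by
        rw [filter_singleton, if_neg]
        simpa using hv
      rw [this]
      simp [hv]
  -- basic facts for a pair of vertices
  have ht_sub : ∀ x, ∀ e ∈ t x, e ∈ T.G.edgeSet := by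
    intro x e he
    simp only [ht, tE, wE, mem_image, mem_range] at he
    obtain ⟨i, hi, rfl⟩ := he
    exact (hP.walk x (hreach x)).2.2 i hi
  have hZ_mem : ∀ x y, ∀ e ∈ Z x y, e = s(x, y) ∨ ∃ z, e ∈ t z := by
    intro x y e he
    simp only [Z, mem_symmDiff, mem_singleton] at he
    rcases he with ⟨h, -⟩ | ⟨h | h, -⟩
    · exact Or.inl h
    · exact Or.inr ⟨x, h.1⟩
    · exact Or.inr ⟨y, h.1⟩
  have hside : ∀ x y, T.G.Adj x y → ∀ g, ∃ S, T.bdry S = Z x y ∧ g ∉ S := by
    intro x y hxy g
    obtain ⟨S, hS'⟩ := hS.span (Z x y) (by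
      intro e he
      rcases hZ_mem x y e he with h | ⟨z, h⟩
      · rw [h]; exact hxy
      · exact ht_sub z e h) (hZeven x y hxy.ne)
    by_cases hg : g ∈ S
    · exact ⟨Sᶜ, by rw [aCompl, hS'], by simpa using hg⟩
    · exact ⟨S, hS', hg⟩
  have hZlen : ∀ x y, (Z x y).card ≤ 2 * r + 1 := by
    intro x y
    have h1 : Z x y ⊆ {s(x, y)} ∪ (t x ∆ t y) := by
      intro e he
      simp only [Z, mem_symmDiff, mem_singleton, mem_union] at he ⊢
      tauto
    have h2 := card_le_card h1
    have h3 := card_union_le ({s(x, y)} : Finset (Sym2 V)) (t x ∆ t y)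
    have h4 := hZcard x y
    simp only [card_singleton] at h3
    omega
  have hbond : ∀ x y, T.G.Adj x y → (∀ z, s(x, y) ∉ t z) → ∀ S, T.bdry S = Z x y → T.Bond S := by
    intro x y hxy hnt S hS'
    have hin : s(x, y) ∈ Z x y := by
      simp only [Z, mem_symmDiff, mem_singleton]
      left
      refine ⟨trivial, fun h => ?_⟩
      rcases h with h | h
      · exact hnt _ h.1
      · exact hnt _ h.1
    refine (pBond V F T hS).1 S ⟨_, by rw [hS']; exact hin⟩ ?_
    rw [hS']
    intro Z' hZ' hev
    by_cases hm : s(x, y) ∈ Z'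
    · right
      have h1 : Z' ∆ Z x y = ∅ := by
        apply acyc _ ((pPar V T.G).1 _ _ hev (hZeven x y hxy.ne))
        intro e he
        have he2 : e ∈ Z x y := by
          rw [mem_symmDiff] at he
          rcases he with h | h
          · exact hZ' h.1
          · exact h.1
        rcases hZ_mem x y e he2 with h | h
        · subst h
          rw [mem_symmDiff] at he
          tauto
        · exact h
      exact symmDiff_eq_bot.mp h1
    · left
      apply acyc _ hev
      intro e he
      rcases hZ_mem x y e (hZ' he) with h | h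
      · subst h; exact absurd he hm
      · exact h
  obtain ⟨mVbd, mL⟩ := hMass V F T hS
  obtain ⟨-, -, -, -, mTot, -⟩ := mL L
  by_contra hno
  push Not at hno
  -- heavy sides
  let Heavy : Finset F → Prop := fun X => ∃ x y, T.G.Adj x y ∧ (∀ z, s(x, y) ∉ t z) ∧
    T.bdry X = Z x y ∧ 4 * T.m L Xᶜ < L.card
  have hlen : ∀ x y S, T.bdry S = Z x y → T.len S ≤ 2 * r + 1 := by
    intro x y S h
    rw [Tri.len, h]
    exact hZlen x y
  have hex : ∃ X, Heavy X := by
    obtain ⟨f, hf⟩ := hS.face o
    have hne : ∃ e ∈ T.bdry {f}, ∀ z, e ∉ t z := by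
      by_contra hcon
      push Not at hcon
      have h1 : T.bdry {f} = ∅ := acyc _ (aEven _) hcon
      have hc := T.tri_card f
      obtain ⟨a, b, c, hab, -, -, habc⟩ := card_eq_three.mp hc
      have ha : a ∈ T.tri f := by rw [habc]; simp
      have hb : b ∈ T.tri f := by rw [habc]; simp
      have : s(a, b) ∈ T.bdry {f} := by
        rw [mem_bdry_singleton]
        refine ⟨T.tri_adj f a ha b hb hab, ?_⟩
        intro v hv
        simp only [Sym2.mem_iff] at hv
        rcases hv with rfl | rfl
        · exact ha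
        · exact hb
      rw [h1] at this
      simp at this
    obtain ⟨e, he, hnt⟩ := hne
    induction e using Sym2.ind with
    | _ x y =>
      have hadj : T.G.Adj x y := bdry_sub he
      obtain ⟨S, hS1, -⟩ := hside x y hadj f
      have hS2 : T.bdry Sᶜ = Z x y := by rw [aCompl, hS1]
      have hB := hbond x y hadj hnt S hS1
      have h1 := hno S hB (hlen x y S hS1)
      by_cases h2 : L.card ≤ 4 * T.m L S
      · exact ⟨S, x, y, hadj, hnt, hS1, h1 h2⟩
      · refine ⟨Sᶜ, x, y, hadj, hnt, hS2, ?_⟩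
        rw [compl_compl]
        omega
  obtain ⟨X, hX, hmin⟩ := exists_min_image (univ.filter Heavy) card (by
    obtain ⟨X, hX⟩ := hex
    exact ⟨X, by simp [hX]⟩)
  have hmin' : ∀ Y, Y.card < X.card → ¬ Heavy Y := by
    intro Y hY hH
    have := hmin Y (by simp [hH])
    omega
  simp only [mem_filter, mem_univ, true_and] at hX
  obtain ⟨x, y, hxy, hnt, hbX, hheavy⟩ := hX
  have hlX := hlen x y X hbX
  have hBX := hbond x y hxy hnt X hbX
  -- the face g of e in X
  have heX : s(x, y) ∈ T.bdry X := by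
    rw [hbX]
    simp only [Z, mem_symmDiff, mem_singleton]
    left
    refine ⟨trivial, fun h => ?_⟩
    rcases h with h | h
    · exact hnt _ h.1
    · exact hnt _ h.1
  obtain ⟨g, hgX, hgon⟩ : ∃ g ∈ X, T.on s(x, y) g := by
    have h1 : (X.filter fun f => T.on s(x, y) f).card = 1 := by
      simp only [Tri.bdry, mem_filter] at heX
      exact heX.2.2
    have : (X.filter fun f => T.on s(x, y) f).Nonempty := by
      rw [← card_pos, h1]; norm_num
    obtain ⟨g, hg⟩ := this
    rw [mem_filter] at hg
    exact ⟨g, hg.1, hg.2⟩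
  have hxg : x ∈ T.tri g := hgon x (by simp)
  have hyg : y ∈ T.tri g := hgon y (by simp)
  obtain ⟨z, hz⟩ : ∃ z, T.tri g = {x, y, z} ∧ z ≠ x ∧ z ≠ y := by
    have hc := T.tri_card g
    have h1 : ((T.tri g).erase x).erase y = ((T.tri g).erase x).erase y := rfl
    have h2 : (((T.tri g).erase x).erase y).card = 1 := by
      rw [card_erase_of_mem (mem_erase.2 ⟨hxy.ne.symm, hyg⟩), card_erase_of_mem hxg, hc]
    obtain ⟨z, hz⟩ := card_eq_one.mp h2
    have hz' : z ∈ ((T.tri g).erase x).erase y := by rw [hz]; simp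
    simp only [mem_erase] at hz'
    refine ⟨z, ?_, hz'.2.1, hz'.1⟩
    ext w
    simp only [mem_insert, mem_singleton]
    have h3 := congrArg (fun s => w ∈ s) hz
    simp only [mem_erase, mem_singleton, eq_iff_iff] at h3
    constructor
    · intro hw
      by_cases h4 : w = x
      · exact Or.inl h4
      · by_cases h5 : w = y
        · exact Or.inr (Or.inl h5)
        · exact Or.inr (Or.inr (h3.1 ⟨h5, h4, hw⟩))
    · rintro (rfl | rfl | h)
      · exact hxg
      · exact hyg
      · exact (h3.2 h).2.2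
  obtain ⟨htri, hzx, hzy⟩ := hz
  have hzg : z ∈ T.tri g := by rw [htri]; simp
  have hyz : T.G.Adj y z := T.tri_adj g y hyg z hzg hzy.symm
  have hzxA : T.G.Adj z x := T.tri_adj g z hzg x hxg hzx
  have hbg : T.bdry {g} = {s(x, y)} ∆ ({s(y, z)} ∆ {s(z, x)}) := by
    ext e
    rw [mem_bdry_singleton]
    have e12 : s(x, y) ≠ s(y, z) := by
      intro h
      simp only [Sym2.eq_iff] at h
      rcases h with ⟨h, -⟩ | ⟨h, -⟩
      · exact hxy.ne h
      · exact hzx h.symm
    have e13 : s(x, y) ≠ s(z, x) := by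
      intro h
      simp only [Sym2.eq_iff] at h
      rcases h with ⟨h, -⟩ | ⟨-, h⟩
      · exact hzx h.symm
      · exact hzy h.symm
    have e23 : s(y, z) ≠ s(z, x) := by
      intro h
      simp only [Sym2.eq_iff] at h
      rcases h with ⟨h, -⟩ | ⟨h, -⟩
      · exact hzy h.symm
      · exact hxy.ne h.symm
    have hr : e ∈ ({s(x, y)} : Finset (Sym2 V)) ∆ ({s(y, z)} ∆ {s(z, x)}) ↔
        e = s(x, y) ∨ e = s(y, z) ∨ e = s(z, x) := by
      simp only [mem_symmDiff, mem_singleton]
      constructor
      · tauto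
      · rintro (rfl | rfl | rfl)
        · left; exact ⟨rfl, by simp [e12, e13]⟩
        · right; exact ⟨Or.inl ⟨rfl, e23⟩, e12.symm⟩
        · right; exact ⟨Or.inr ⟨rfl, e23.symm⟩, e13.symm⟩
    rw [hr]
    constructor
    · induction e using Sym2.ind with
      | _ u v =>
        rintro ⟨he, hon⟩
        have hu := hon u (by simp)
        have hv := hon v (by simp)
        have huv : u ≠ v := (show T.G.Adj u v from he).ne
        rw [htri] at hu hv
        simp only [mem_insert, mem_singleton] at hu hv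
        simp only [Sym2.eq_iff]
        rcases hu with rfl | rfl | rfl <;> rcases hv with rfl | rfl | rfl <;> simp_all
    · rintro (rfl | rfl | rfl)
      · exact ⟨hxy, hgon⟩
      · refine ⟨hyz, fun w hw => ?_⟩
        simp only [Sym2.mem_iff] at hw
        rcases hw with rfl | rfl
        · exact hyg
        · exact hzg
      · refine ⟨hzxA, fun w hw => ?_⟩
        simp only [Sym2.mem_iff] at hw
        rcases hw with rfl | rfl
        · exact hzg
        · exact hxg
  obtain ⟨X₁, hb₁, hg₁⟩ := hside y z hyz g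
  obtain ⟨X₂, hb₂, hg₂⟩ := hside z x hzxA g
  have hsplit : X \ {g} = X₁ ∆ X₂ := by
    have h1 : T.bdry ((X ∆ {g}) ∆ (X₁ ∆ X₂)) = ∅ := by
      rw [aAdd, aAdd X, aAdd X₁, hbX, hbg, hb₁, hb₂]
      exact six _ _ _ _ _ _
    have h2 : g ∉ (X ∆ {g}) ∆ (X₁ ∆ X₂) := by
      simp [mem_symmDiff, hgX, hg₁, hg₂]
    have h3 : (X ∆ {g}) ∆ (X₁ ∆ X₂) = ∅ := by
      rcases hS.dual _ h1 with h | h
      · exact h
      · rw [h] at h2; simp at h2
    have h4 : X ∆ {g} = X₁ ∆ X₂ := symmDiff_eq_bot.mp h3
    rw [← h4]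
    ext f
    simp only [mem_sdiff, mem_singleton, mem_symmDiff]
    constructor
    · rintro ⟨h5, h6⟩
      exact Or.inl ⟨h5, h6⟩
    · rintro (⟨h5, h6⟩ | ⟨h5, h6⟩)
      · exact ⟨h5, h6⟩
      · subst h5; exact absurd hgX h6
  -- the sides are contained in X
  have hsub : ∀ u v S, T.G.Adj u v → T.on s(u, v) g → s(u, v) ≠ s(x, y) →
      T.bdry S = Z u v → g ∉ S → S ⊆ X := by
    intro u v S huv hon hne hbS hgS
    have hW : S ∩ Xᶜ = ∅ := by
      have hbW : T.bdry (S ∩ Xᶜ) = ∅ := by
        apply acyc _ (aEven _)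
        intro e he
        have h1 := bdry_inter he
        rw [aCompl] at h1
        by_contra hcon
        push Not at hcon
        have hcase : e = s(u, v) ∨ e = s(x, y) := by
          rcases h1 with h | h
          · rw [hbS] at h
            rcases hZ_mem _ _ _ h with h | ⟨w, h⟩
            · exact Or.inl h
            · exact absurd h (hcon w)
          · rw [hbX] at h
            rcases hZ_mem _ _ _ h with h | ⟨w, h⟩
            · exact Or.inr h
            · exact absurd h (hcon w)
        rcases hcase with rfl | rfl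
        · -- e_i
          obtain ⟨h', -, -, hb⟩ := two_faces (bdry_sub he) hon
          have h3 : s(u, v) ∉ T.bdry X := by
            rw [hbX]
            intro h
            rcases hZ_mem _ _ _ h with h | ⟨w, h⟩
            · exact hne h
            · exact hcon w h
          rw [hb] at h3 he
          simp only [mem_inter, mem_compl, hgS, hgX] at h3 he
          tauto
        · obtain ⟨h', -, -, hb⟩ := two_faces (bdry_sub he) hgon
          have h3 : s(x, y) ∉ T.bdry S := by
            rw [hbS]
            intro h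
            rcases hZ_mem _ _ _ h with h | ⟨w, h⟩
            · exact hne h.symm
            · exact hcon w h
          rw [hb] at h3 he
          simp only [mem_inter, mem_compl, hgS, hgX] at h3 he
          tauto
      rcases hS.dual _ hbW with h | h
      · exact h
      · have : g ∈ S ∩ Xᶜ := by rw [h]; simp
        exact absurd (mem_inter.1 this).1 hgS
    intro f hf
    by_contra hfX
    have : f ∈ S ∩ Xᶜ := by simp [hf, hfX]
    rw [hW] at this
    simp at this
  have hlight : ∀ u v S, T.G.Adj u v → T.on s(u, v) g → s(u, v) ≠ s(x, y) →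
      T.bdry S = Z u v → g ∉ S → 4 * T.m L S < L.card := by
    intro u v S huv hon hne hbS hgS
    have h1 := hsub u v S huv hon hne hbS hgS
    by_cases htr : ∃ w, s(u, v) ∈ t w
    · have h2 : Z u v = ∅ := by
        apply acyc _ (hZeven u v huv.ne)
        intro e he
        rcases hZ_mem _ _ _ he with h | h
        · rw [h]; exact htr
        · exact h
      have h3 : S = ∅ := by
        rcases hS.dual S (by rw [hbS, h2]) with h | h
        · exact h
        · rw [h] at hgS; simp at hgS
      have h4 : T.m L S = 0 := by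
        rw [Tri.m, card_eq_zero, h3]
        ext w
        simp only [Tri.Vin, mem_inter, mem_filter, mem_univ, true_and, notMem_empty, iff_false,
          not_and]
        intro _ h5
        obtain ⟨f, hf⟩ := hS.face w
        exact h5 f hf
      omega
    · push Not at htr
      have hcard : S.card < X.card := by
        apply card_lt_card
        refine ⟨h1, fun h => hgS (h hgX)⟩
      have h2 := hmin' S hcard
      have h3 : ¬ 4 * T.m L Sᶜ < L.card := fun h => h2 ⟨u, v, huv, htr, hbS, h⟩
      have h4 := hno S (hbond u v huv htr S hbS) (hlen u v S hbS)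
      by_contra h5
      exact h3 (h4 (by omega))
  have hon₁ : T.on s(y, z) g := by
    intro w hw
    simp only [Sym2.mem_iff] at hw
    rcases hw with rfl | rfl
    · exact hyg
    · exact hzg
  have hon₂ : T.on s(z, x) g := by
    intro w hw
    simp only [Sym2.mem_iff] at hw
    rcases hw with rfl | rfl
    · exact hzg
    · exact hxg
  have hne₁ : s(y, z) ≠ s(x, y) := by
    intro h
    simp only [Sym2.eq_iff] at h
    rcases h with ⟨h, -⟩ | ⟨-, h⟩
    · exact hxy.ne h.symm
    · exact hzx h
  have hne₂ : s(z, x) ≠ s(x, y) := by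
    intro h
    simp only [Sym2.eq_iff] at h
    rcases h with ⟨h, -⟩ | ⟨h, -⟩
    · exact hzx h
    · exact hzy h
  have hl₁ := hlight y z X₁ hyz hon₁ hne₁ hb₁ hg₁
  have hl₂ := hlight z x X₂ hzxA hon₂ hne₂ hb₂ hg₂
  have hlen₁ := hlen y z X₁ hb₁
  have hlen₂ := hlen z x X₂ hb₂
  -- the mass of X
  have hmX : T.m L X ≤ T.m L X₁ + T.m L X₂ + T.len X₁ + T.len X₂ + 3 := by
    have hincl : L ∩ T.Vin X ⊆
        (L ∩ T.Vin X₁) ∪ ((L ∩ T.Vin X₂) ∪ (T.Vbd X₁ ∪ (T.Vbd X₂ ∪ T.tri g))) := by
      intro w hw
      rw [mem_inter] at hw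
      have hwX : ∀ f, w ∈ T.tri f → f ∈ X := by
        have := hw.2
        simp only [Tri.Vin, mem_filter] at this
        exact this.2
      simp only [mem_union, mem_inter]
      rcases (pTri V F T hS).1 X₁ w with h | h | h
      · exact Or.inl ⟨hw.1, h⟩
      · exact Or.inr (Or.inr (Or.inl h))
      · rcases (pTri V F T hS).1 X₂ w with h' | h' | h'
        · exact Or.inr (Or.inl ⟨hw.1, h'⟩)
        · exact Or.inr (Or.inr (Or.inr (Or.inl h')))
        · right; right; right; right
          obtain ⟨f, hf⟩ := hS.face w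
          have h1 : f ∉ X₁ := by
            simp only [Tri.Vin, mem_filter, mem_compl] at h
            exact h.2 f hf
          have h2 : f ∉ X₂ := by
            simp only [Tri.Vin, mem_filter, mem_compl] at h'
            exact h'.2 f hf
          have h3 := hwX f hf
          by_contra hcon
          have h4 : f ≠ g := by
            rintro rfl
            exact hcon hf
          have h5 : f ∈ X \ {g} := by simp [h3, h4]
          rw [hsplit, mem_symmDiff] at h5
          tauto
    have h1 := card_le_card hincl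
    have h2 := card_union_le (L ∩ T.Vin X₁)
      ((L ∩ T.Vin X₂) ∪ (T.Vbd X₁ ∪ (T.Vbd X₂ ∪ T.tri g)))
    have h3 := card_union_le (L ∩ T.Vin X₂) (T.Vbd X₁ ∪ (T.Vbd X₂ ∪ T.tri g))
    have h4 := card_union_le (T.Vbd X₁) (T.Vbd X₂ ∪ T.tri g)
    have h5 := card_union_le (T.Vbd X₂) (T.tri g)
    have h6 := mVbd X₁
    have h7 := mVbd X₂
    have h8 := T.tri_card g
    simp only [Tri.m]
    omega
  have h1 := mTot X
  omega

end Pool.Agent.Helper5.FF
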